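import Pool.Agent.Lib.MP_c789b2_co.Compare

/-!
Q1, partial: for all large `d` the maximal degree `mu_d` of the Wang-Shi split lies between
`M(d^2) / (log d)^200` and `6 M(d^2)`, where `M(X)` is the largest number of divisors of an
integer `m` with `1 ≤ m ≤ X`.
-/

namespace Pool.Agent.Results.MP_c789b2_co.Growth

open Pool.Agent.Lib.MP_c789b2_co

theorem result : ∃ d₀ : ℕ, ∀ (T : Affine.Triangle ℝ Plane) (d : ℕ), d₀ ≤ d →
    ∃ k : ℕ, mu T d = (k : ℕ∞) ∧
      ((maxTau (d ^ 2) : ℕ) : ℝ) / Real.log (d : ℝ) ^ 200 ≤ (k : ℝ) ∧ k ≤ 6 * maxTau (d ^ 2) := by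
  obtain ⟨d₀, h⟩ := Filter.eventually_atTop.1 maxTau_le_mu
  refine ⟨max d₀ 2, fun T d hd => ?_⟩
  have h1 : d₀ ≤ d := le_trans (le_max_left _ _) hd
  have h2 : 2 ≤ d := le_trans (le_max_right _ _) hd
  have hL : 0 < Real.log (d : ℝ) := Real.log_pos (by exact_mod_cast h2)
  refine ⟨(mu T d).toNat, (ENat.natCast_toNat (mu_ne_top T (by omega))).symm, ?_,
    toNat_mu_le T (by omega)⟩
  rw [div_le_iff₀ (by positivity), mul_comm]
  exact h d h1 T

end Pool.Agent.Results.MP_c789b2_co.Growth
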