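import Pool.Agent.Lib.MP_c789b2_co.Geom

open Pool.Agent.Lib.MP_c789b2_co

/-- Q2: at most `d + 1` lines of the Wang-Shi split pass through an interior point. -/
theorem Pool.Agent.Results.MP_c789b2_co.Q2.result :
    ∀ (T : Affine.Triangle ℝ Plane) (d : ℕ), 2 ≤ d →
      ∀ p ∈ interior (convexHull ℝ (Set.range T.points)), degree T d p ≤ (d : ℕ∞) + 1 :=
  fun T _ hd _ hp => degree_le T (by omega) hp
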